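import Pool.Agent.H95.CM.Targets

/-!
# Row CVF: the covolume of an ideal
-/

set_option autoImplicit false

open MeasureTheory Set Filter NumberField
open scoped Real nonZeroDivisors

namespace Pool.Agent.H13.CM4

open Pool.Agent.H65.CM4
open Pool.Agent.H95.CM
open Pool.Agent.H31.CN (IsLf)
open Pool.Agent.H61.FM (CC pv)
open Module

/-- The discriminant of a family of vectors in terms of a basis. -/
theorem discr_family {ι E K : Type} [Fintype ι] [DecidableEq ι] [AddCommGroup E] [Field K]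
    [Algebra ℚ K] (b : Basis ι ℤ E) (v : ι → E) (f : E →+ K) :
    Algebra.discr ℚ (fun i => f (v i)) = ((b.det v : ℤ) : ℚ) ^ 2 * Algebra.discr ℚ (fun i => f (b i)) := by
  have h1 : (fun i => f (v i)) = Matrix.vecMul (fun i => f (b i))
      (((b.toMatrix v).map (Int.cast : ℤ → ℚ)).map (algebraMap ℚ K)) := by
    funext j
    have h2 : v j = ∑ i, (b.toMatrix v i j) • b i := (b.sum_toMatrix_smul_self v j).symm
    conv_lhs => rw [h2, map_sum]
    unfold Matrix.vecMul dotProduct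
    refine Finset.sum_congr rfl fun i _ => ?_
    rw [map_zsmul, zsmul_eq_mul, mul_comm]
    simp [Matrix.map_apply]
  rw [h1, Algebra.discr_of_matrix_vecMul]
  congr 2
  rw [Basis.det_apply]
  exact ((Int.castRingHom ℚ).map_det (b.toMatrix v)).symm

section

variable {k K : Type} [Field k] [NumberField k] [IsTotallyReal k] [Field K] [NumberField K]
  [IsTotallyComplex K] [Algebra k K] [Algebra.IsQuadraticExtension k K]

/-- the combination, additive -/
noncomputable def linA (α β : K) : V2 k →+ K where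
  toFun := lin α β
  map_zero' := by simp [lin]
  map_add' := lin_add α β

/-- a basis of the vectors -/
noncomputable def bV : Basis (Fin 2 × Module.Free.ChooseBasisIndex ℤ (𝓞 k)) ℤ (V2 k) :=
  ((RingOfIntegers.basis k).prod (RingOfIntegers.basis k)).reindex
    ((Equiv.boolProdEquivSum _).symm.trans (Equiv.prodCongr finTwoEquiv.symm (Equiv.refl _)))

theorem lin_bV (α β : K) (i : Fin 2 × Module.Free.ChooseBasisIndex ℤ (𝓞 k)) :
    linA α β (bV (k := k) i) = algebraMap k K (integralBasis k i.2) * (if i.1 = 0 then α else β) := by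
  obtain ⟨a, i⟩ := i
  rw [integralBasis_apply]
  fin_cases a
  · simp [linA, bV, lin, Equiv.boolProdEquivSum, finTwoEquiv, Basis.prod_apply]
  · simp [linA, bV, lin, Equiv.boolProdEquivSum, finTwoEquiv, Basis.prod_apply]

theorem lin_inj' {α β : K} (hinj : ∀ u : V2 k, lin α β u = 0 → u = 0) (x y : k)
    (h : algebraMap k K x * α + algebraMap k K y * β = 0) : x = 0 ∧ y = 0 := by
  obtain ⟨x1, c1, hc1, rfl⟩ := IsFractionRing.div_surjective (A := 𝓞 k) x
  obtain ⟨y1, c2, hc2, rfl⟩ := IsFractionRing.div_surjective (A := 𝓞 k) y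
  have hc1' : (c1 : k) ≠ 0 := by
    have := nonZeroDivisors.ne_zero hc1
    exact fun h => this (RingOfIntegers.ext h)
  have hc2' : (c2 : k) ≠ 0 := by
    have := nonZeroDivisors.ne_zero hc2
    exact fun h => this (RingOfIntegers.ext h)
  have h3 := hinj (x1 * c2, y1 * c1) (by
    have h4 : algebraMap k K ((c1 : k) * c2) * (algebraMap k K (algebraMap (𝓞 k) k x1 / algebraMap (𝓞 k) k c1) * α +
        algebraMap k K (algebraMap (𝓞 k) k y1 / algebraMap (𝓞 k) k c2) * β) = 0 := by rw [h, mul_zero]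
    rw [← h4]
    have e1 : (((x1 * c2 : 𝓞 k)) : k) = ((c1 : k) * c2) * (algebraMap (𝓞 k) k x1 / algebraMap (𝓞 k) k c1) := by
      push_cast
      field_simp
    have e2 : (((y1 * c1 : 𝓞 k)) : k) = ((c1 : k) * c2) * (algebraMap (𝓞 k) k y1 / algebraMap (𝓞 k) k c2) := by
      push_cast
      field_simp
    simp only [lin]
    rw [e1, e2]
    simp only [map_mul]
    ring)
  have h5 := Prod.mk.inj h3
  have hx : x1 = 0 := by
    rcases mul_eq_zero.1 h5.1 with h | h
    · exact h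
    · exact absurd (by rw [h]; rfl) hc2'
  have hy : y1 = 0 := by
    rcases mul_eq_zero.1 h5.2 with h | h
    · exact h
    · exact absurd (by rw [h]; rfl) hc1'
  rw [hx, hy]
  simp

/-- the inclusion of the lattice -/
noncomputable def fM (α β : K) (M : La k) : M.toAddSubgroup →ₗ[ℤ] K :=
  ((linA α β).comp M.toAddSubgroup.subtype).toIntLinearMap

/-- the inclusion of the ideal -/
noncomputable def fI (I : Ideal (𝓞 K)) : I →ₗ[ℤ] K where
  toFun x := ((x : 𝓞 K) : K)
  map_add' x y := by simp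
  map_smul' n x := by simp

theorem exists_bases {b : ℕ} {I : Ideal (𝓞 K)} {α β : K} {μ : k} {M : La k} {Q : QF k}
    (hI : I ≠ ⊥) (hO : Ob k b I α β μ M Q)
    (b0 : Basis (Fin 2 × Module.Free.ChooseBasisIndex ℤ (𝓞 k)) ℤ (𝓞 K)) :
    ∃ (bI : Basis (Fin 2 × Module.Free.ChooseBasisIndex ℤ (𝓞 k)) ℤ I)
      (bM : Basis (Fin 2 × Module.Free.ChooseBasisIndex ℤ (𝓞 k)) ℤ M.toAddSubgroup),
      ∀ i, ((bI i : 𝓞 K) : K) = linA α β (bM i : V2 k) := by
  have iM : Function.Injective (fM α β M) := by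
    rw [injective_iff_map_eq_zero]
    intro u hu
    exact Subtype.ext (hO.inj _ hu)
  have iI : Function.Injective (fI I) := by
    intro x y h
    exact Subtype.ext (RingOfIntegers.ext h)
  have hr : LinearMap.range (fI I) = LinearMap.range (fM α β M) := by
    ext z
    constructor
    · rintro ⟨x, rfl⟩
      obtain ⟨u, hu⟩ := hO.mem x x.2
      have huM : u ∈ M := by
        rw [hO.lat]
        exact ⟨x, x.2, hu.symm⟩
      exact ⟨⟨u, huM⟩, hu⟩
    · rintro ⟨⟨u, hu⟩, rfl⟩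
      have hu' : u ∈ lt α β I := hO.lat ▸ hu
      obtain ⟨x, hx, e⟩ := hu'
      exact ⟨⟨x, hx⟩, e⟩
  let e : I ≃ₗ[ℤ] M.toAddSubgroup :=
    (LinearEquiv.ofInjective (fI I) iI).trans
      ((LinearEquiv.ofEq _ _ hr).trans (LinearEquiv.ofInjective (fM α β M) iM).symm)
  refine ⟨I.selfBasis b0 hI, (I.selfBasis b0 hI).map e, fun i => ?_⟩
  have h1 : fM α β M (e (I.selfBasis b0 hI i)) = fI I (I.selfBasis b0 hI i) := by
    have h2 : (LinearEquiv.ofInjective (fM α β M) iM) (e (I.selfBasis b0 hI i)) =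
        (LinearEquiv.ofEq _ _ hr) ((LinearEquiv.ofInjective (fI I) iI) (I.selfBasis b0 hI i)) := by
      simp [e]
    have h3 := congrArg Subtype.val h2
    exact h3
  rw [Basis.map_apply]
  exact h1.symm

end

theorem card_index (k K : Type) [Field k] [NumberField k] [Field K] [NumberField K] [Algebra k K]
    [Algebra.IsQuadraticExtension k K] :
    Fintype.card (Module.Free.ChooseBasisIndex ℤ (𝓞 K)) =
      Fintype.card (Fin 2 × Module.Free.ChooseBasisIndex ℤ (𝓞 k)) := by
  rw [Fintype.card_prod, Fintype.card_fin, ← Module.finrank_eq_card_chooseBasisIndex,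
    ← Module.finrank_eq_card_chooseBasisIndex, RingOfIntegers.rank, RingOfIntegers.rank,
    ← Module.finrank_mul_finrank ℚ k K, Algebra.IsQuadraticExtension.finrank_eq_two k K, mul_comm]

/-- Row CVF. -/
theorem pf_CVF (hDTW : T_DTW) (hNF2 : T_NF2) (hIXL : T_IXL) : T_CVF := by
  classical
  intro k K _ _ _ _ _ _ _ _ b I α β μ M Q hb hI hO
  obtain ⟨p, q, r, hp, hr, hn, hpos⟩ := hNF2 k K α β (lin_inj' hO.inj)
  have n1 := hO.nrm (1, 0)
  have n2 := hO.nrm (0, 1)
  have n3 := hO.nrm (1, 1)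
  have ev : ∀ u : V2 k, Algebra.norm k (lin α β u) =
      p * (u.1 : k) ^ 2 + q * ((u.1 : k) * (u.2 : k)) + r * (u.2 : k) ^ 2 := fun u => hn _ _
  rw [ev] at n1 n2 n3
  simp only [val] at n1 n2 n3
  push_cast at n1 n2 n3
  have ep : p = μ * (Q.1 : k) := by linear_combination n1
  have er : r = μ * (Q.2.2 : k) := by linear_combination n2
  have eq : q = μ * (Q.2.1 : k) := by linear_combination n3 - n1 - n2
  have ed : 4 * (p * r) - q ^ 2 = μ ^ 2 * (dsc Q : k) := by
    rw [ep, er, eq, dsc]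
    simp only [map_sub, map_mul, map_pow, map_ofNat]
    ring
  have hposQ : ∀ v : Pl k, 0 < rv v (Q.1 : k) ∧ 0 < rv v (dsc Q : k) := by
    intro v
    obtain ⟨h1, h2⟩ := hpos v
    have hμ := hO.pos v
    rw [ep, map_mul] at h1
    rw [ed, map_mul, map_pow] at h2
    exact ⟨(pos_iff_pos_of_mul_pos h1).1 hμ, (pos_iff_pos_of_mul_pos h2).1 (pow_pos hμ 2)⟩
  refine ⟨hposQ, ?_⟩
  let σ : Module.Free.ChooseBasisIndex ℤ (𝓞 K) ≃ Fin 2 × Module.Free.ChooseBasisIndex ℤ (𝓞 k) :=
    Fintype.equivOfCardEq (card_index k K)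
  let b0 : Basis (Fin 2 × Module.Free.ChooseBasisIndex ℤ (𝓞 k)) ℤ (𝓞 K) :=
    (RingOfIntegers.basis K).reindex σ
  obtain ⟨bI, bM, hIM⟩ := exists_bases hI hO b0
  have d0 : Algebra.discr ℚ (fun i => ((b0 i : 𝓞 K) : K)) = (discr K : ℚ) := by
    rw [coe_discr, ← Algebra.discr_reindex ℚ (integralBasis K) σ]
    congr 1
    funext i
    simp [b0, integralBasis_apply]
  have d1 : Algebra.discr ℚ (fun i => ((bI i : 𝓞 K) : K)) =
      ((b0.det (fun i => (bI i : 𝓞 K)) : ℤ) : ℚ) ^ 2 * (discr K : ℚ) := by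
    rw [← d0]
    exact discr_family b0 (fun i => (bI i : 𝓞 K)) (algebraMap (𝓞 K) K).toAddMonoidHom
  have d2 : Algebra.discr ℚ (fun i => ((bI i : 𝓞 K) : K)) =
      ((bV.det (fun i => (bM i : V2 k)) : ℤ) : ℚ) ^ 2 *
        Algebra.discr ℚ (fun i : Fin 2 × Module.Free.ChooseBasisIndex ℤ (𝓞 k) =>
        algebraMap k K (integralBasis k i.2) * (if i.1 = 0 then α else β)) := by
    have h := discr_family (K := K) bV (fun i => (bM i : V2 k)) (linA α β)
    simp only [lin_bV] at h
    rw [← h]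
    congr 1
    funext i
    exact hIM i
  have a1 : ((b0.det (fun i => (bI i : 𝓞 K)) : ℤ) : ℝ) ^ 2 = nm I ^ 2 := by
    have h : (b0.det (fun i => (bI i : 𝓞 K))).natAbs = Ideal.absNorm I :=
      Ideal.natAbs_det_basis_change b0 I bI
    unfold nm
    rw [← h, Nat.cast_natAbs, Int.cast_abs, sq_abs]
  have a2 : ((bV.det (fun i => (bM i : V2 k)) : ℤ) : ℝ) ^ 2 = (ix M : ℝ) ^ 2 := by
    have h : ix M = (bV.det (fun i => (bM i : V2 k))).natAbs :=
      AddSubgroup.index_eq_natAbs_det bV M.toAddSubgroup bM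
    rw [h, Nat.cast_natAbs, Int.cast_abs, sq_abs]
  have hD := hDTW k K α β p q r hn
  have h3 := d1.symm.trans d2
  have h4 := congrArg (fun x : ℚ => |(x : ℝ)|) h3
  push_cast at h4
  rw [abs_mul, abs_mul, abs_sq, abs_sq, a1, a2, hD, ed] at h4
  rw [h4]
  have h5 : ∏ v : Pl k, |rv v (μ ^ 2 * (dsc Q : k))| =
      (∏ v : Pl k, rv v μ) ^ 2 * ∏ v : Pl k, rv v (dsc Q : k) := by
    rw [← Finset.prod_pow, ← Finset.prod_mul_distrib]
    refine Finset.prod_congr rfl fun v _ => ?_
    rw [map_mul, map_pow, abs_of_pos (mul_pos (pow_pos (hO.pos v) 2) (hposQ v).2)]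
  rw [h5]
  ring

end Pool.Agent.H13.CM4
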