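import Pool.Agent.H23.CM4.Targets

/-!
# Row CMX: degrees and discriminants
-/

set_option autoImplicit false

open NumberField MeasureTheory Set Filter Complex
open scoped nonZeroDivisors Real
open Pool.Agent.H23.CM4
open Pool.Agent.H31.CN (IsLf)
open Pool.Agent.H61.FM (CC pv Sp lm Nn)
open Pool.Agent.H65.CM4 (gG Kc Sq nm dg)
open Pool.Agent.H25.HK (FI Pri du)

namespace Pool.Agent.H13.CM4

/-- Row CMX. -/
theorem pf_CMX : T_CMX := by
  refine ⟨fun k _ _ K _ _ _ h => ⟨Module.finrank_pos, ?_, h.cpx⟩, fun K _ _ => ?_⟩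
  · have h1 := Module.finrank_mul_finrank ℚ k K
    rw [h.rk] at h1
    rw [← h1, mul_comm]
    rfl
  · have h1 : (1 : ℤ) ≤ |discr K| := Int.one_le_abs (discr_ne_zero K)
    unfold dK
    exact_mod_cast h1

end Pool.Agent.H13.CM4
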