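import Pool.Agent.H89.CM4.Targets2b

/-!
# Row HEC: the Hecke relation
-/

set_option autoImplicit false

open MeasureTheory Set Filter NumberField NumberField.InfinitePlace Pool.Agent.H65.CM4
  Pool.Agent.H89.CM4
open scoped Real

namespace Pool.Agent.H13.CM4

variable (k : Type) [Field k] [NumberField k] [IsTotallyReal k]

variable {k} in
theorem sf_left {b : ℕ} {I g : Ideal (𝓞 k)} (h : Sf b (I * g)) : Sf b I :=
  ⟨fun e => h.ne (by rw [e, Ideal.bot_mul]), h.sq.of_mul_left,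
    top_le_iff.1 (h.cop ▸ sup_le_sup_right Ideal.mul_le_left _)⟩

variable {k} in
theorem sf_right {b : ℕ} {I g : Ideal (𝓞 k)} (h : Sf b (I * g)) : Sf b g :=
  sf_left (by rw [mul_comm]; exact h)

variable {k} in
theorem sf_dvd {b : ℕ} {J g : Ideal (𝓞 k)} (h : Sf b g) (hJ : J ∣ g) : Sf b J := by
  obtain ⟨c, rfl⟩ := hJ
  exact sf_left h

variable {k} in
theorem sf_sup {b : ℕ} {I g : Ideal (𝓞 k)} (h : Sf b (I * g)) : I ⊔ g = ⊤ := by
  have h1 : IsRelPrime I g := (squarefree_mul_iff.1 h.sq).1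
  have h2 : IsUnit (I ⊔ g) :=
    h1 (Ideal.dvd_iff_le.2 le_sup_left) (Ideal.dvd_iff_le.2 le_sup_right)
  exact Ideal.isUnit_iff.1 h2

variable {k} in
theorem sf_top {b : ℕ} : Sf b (⊤ : Ideal (𝓞 k)) := by
  refine ⟨top_ne_bot, ?_, top_sup_eq _⟩
  rw [← Ideal.one_eq_top]
  exact squarefree_one

/-- Row HEC. -/
theorem pf_HEC (hHE1 : T_HE1 k) (hEZA : T_EZA k) (hIXC : T_IXC k) (hFLS : T_FLS k)
    (hCRT : T_CRT k) : T_HEC k := by
  classical
  intro b M I g L' x y s hb hM hIg hL' hy hs0 hs2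
  have hI : Sf b I := sf_left hIg
  have hg : Sf b g := sf_right hIg
  obtain ⟨hM0, _, hix⟩ := hIXC b M hb hM
  have aN : ∀ J : Ideal (𝓞 k), J ≠ ⊥ → Ideal.absNorm J ≠ 0 := fun J hJ h =>
    hJ (Ideal.absNorm_eq_zero_iff.1 h)
  have nmp : ∀ J : Ideal (𝓞 k), J ≠ ⊥ → ((nm J : ℝ) : ℂ) ≠ 0 := fun J hJ => by
    unfold nm
    exact_mod_cast aN J hJ
  have i1 : ∀ L ∈ Ls (I * g), ix (M ⊓ L) ≠ 0 := by
    intro L hL
    rw [(hix (I * g) ⊤ L hIg sf_top (sup_top_eq _) hL).1]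
    exact mul_ne_zero hM0.ne' (aN _ hIg.ne)
  have i2 : ∀ J ∈ dv g, J ≠ ⊥ ∧ ix (M ⊓ L' ⊓ kO J) ≠ 0 := by
    intro J hJ
    have hd : J ∣ g := (Finset.mem_filter.1 hJ).2
    have hJ' : Sf b J := sf_dvd hg hd
    have hIJ : I ⊔ J = ⊤ :=
      top_le_iff.1 (sf_sup hIg ▸ sup_le_sup_left (Ideal.le_of_dvd hd) _)
    refine ⟨hJ'.ne, ?_⟩
    rw [(hix I J L' hI hJ' hIJ hL').2]
    exact mul_ne_zero (mul_ne_zero hM0.ne' (aN _ hI.ne)) (pow_ne_zero 2 (aN _ hJ'.ne))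
  set U : Set ℂ := {s : ℂ | 0 < s.re ∧ s.re < 2} with hU
  have hUo : IsOpen U :=
    (isOpen_lt continuous_const Complex.continuous_re).inter
      (isOpen_lt Complex.continuous_re continuous_const)
  have hUc : IsPreconnected U := by
    refine Convex.isPreconnected ?_
    exact (convex_halfSpace_re_gt 0).inter (convex_halfSpace_re_lt 2)
  have d1 : DifferentiableOn ℂ (fun s => ∑ L ∈ (Ls (I * g)).filter (fun L => L ≤ L'),
      Ez s (M ⊓ L) x y) U := by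
    refine DifferentiableOn.fun_sum fun L hL => ?_
    exact (hEZA (M ⊓ L) x y (i1 L (Finset.mem_filter.1 hL).1) hy).1
  have d2 : DifferentiableOn ℂ (fun s => ∑ J ∈ dv g, ((nm J : ℝ) : ℂ) ^ (1 - 2 * s) *
      ((nm g : ℝ) : ℂ) ^ s * Ez s (M ⊓ L' ⊓ kO J) x y) U := by
    refine DifferentiableOn.fun_sum fun J hJ => ?_
    obtain ⟨hJ0, hJx⟩ := i2 J hJ
    refine DifferentiableOn.mul (DifferentiableOn.mul ?_ ?_)
      (hEZA (M ⊓ L' ⊓ kO J) x y hJx hy).1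
    · refine Differentiable.differentiableOn ?_
      exact Differentiable.const_cpow (by fun_prop) (Or.inl (nmp J hJ0))
    · refine Differentiable.differentiableOn ?_
      exact Differentiable.const_cpow (by fun_prop) (Or.inl (nmp g hg.ne))
  have hz : (3 / 2 : ℂ) ∈ U := by
    constructor <;> norm_num
  have hev : (fun s => ∑ L ∈ (Ls (I * g)).filter (fun L => L ≤ L'), Ez s (M ⊓ L) x y) =ᶠ[nhds (3 / 2 : ℂ)]
      (fun s => ∑ J ∈ dv g, ((nm J : ℝ) : ℂ) ^ (1 - 2 * s) *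
      ((nm g : ℝ) : ℂ) ^ s * Ez s (M ⊓ L' ⊓ kO J) x y) := by
    have hV : {s : ℂ | 1 < s.re ∧ s.re < 2} ∈ nhds (3 / 2 : ℂ) := by
      refine IsOpen.mem_nhds ((isOpen_lt continuous_const Complex.continuous_re).inter
        (isOpen_lt Complex.continuous_re continuous_const)) ?_
      constructor <;> norm_num
    filter_upwards [hV] with z hz
    exact hHE1 b M I g L' x y z hb hM hIg hL' hy hz.1 hz.2
  exact AnalyticOnNhd.eqOn_of_preconnected_of_eventuallyEq (d1.analyticOnNhd hUo)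
    (d2.analyticOnNhd hUo) hUc hz hev ⟨hs0, hs2⟩

end Pool.Agent.H13.CM4
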