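import Pool.Agent.H65.CM4.Targets1

/-!
# Row RFM: the Ramanujan products are multiplicative
-/

set_option autoImplicit false

open MeasureTheory Set Filter NumberField NumberField.InfinitePlace Pool.Agent.H65.CM4
open scoped Real

namespace Pool.Agent.H13.CM4

variable (k : Type) [Field k] [NumberField k] [IsTotallyReal k]

variable {k} in
theorem val_smul (Q : QF k) (c : 𝓞 k) (v : V2 k) : val Q (c • v) = c ^ 2 * val Q v := by
  unfold val
  simp only [Prod.smul_fst, Prod.smul_snd, smul_eq_mul]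
  ring

/-- Divisibility on the intersection with a lattice of coprime index. -/
theorem dv_inf (hFLS : T_FLS k) (P f m : Ideal (𝓞 k)) (L₁ L₂ : La k) (Q : QF k) (hm : m ≠ ⊥)
    (hfm : f ⊔ m = ⊤) (h₂ : L₂ ∈ Ls m) (hp : P.IsPrime) (hpf : P ∣ f) :
    Dv P (L₁ ⊓ L₂) Q ↔ Dv P L₁ Q := by
  have hfP : f ≤ P := Ideal.le_of_dvd hpf
  have hmP : ¬ m ≤ P := fun h => hp.ne_top (top_le_iff.1 (hfm ▸ sup_le hfP h))
  obtain ⟨c, hcm, hcP⟩ := SetLike.not_le_iff_exists.1 hmP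
  constructor
  · intro h v hv
    have h1 : c • v ∈ L₁ ⊓ L₂ :=
      Submodule.mem_inf.2 ⟨L₁.smul_mem c hv, ((hFLS m L₂ hm).2 h₂).1 c hcm v⟩
    have h2 := h _ h1
    rw [val_smul] at h2
    rcases hp.mem_or_mem h2 with h3 | h3
    · exact absurd (hp.mem_of_pow_mem 2 h3) hcP
    · exact h3
  · intro h v hv
    exact h v (Submodule.mem_inf.1 hv).1

/-- Row RFM. -/
theorem pf_RFM (hFLS : T_FLS k) (hCRT : T_CRT k) : T_RFM k := by
  classical
  intro f m L₁ L₂ Q hf hm hfm h₁ h₂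
  have k1 : ∀ P : Ideal (𝓞 k), P.IsPrime → P ∣ f → (Dv P (L₁ ⊓ L₂) Q ↔ Dv P L₁ Q) :=
    fun P hp hpf => dv_inf k hFLS P f m L₁ L₂ Q hm hfm h₂ hp hpf
  have k2 : ∀ P : Ideal (𝓞 k), P.IsPrime → P ∣ m → (Dv P (L₁ ⊓ L₂) Q ↔ Dv P L₂ Q) :=
    fun P hp hpm => by
      rw [inf_comm]
      exact dv_inf k hFLS P m f L₂ L₁ Q hf (by rw [sup_comm]; exact hfm) h₁ hp hpm
  refine ⟨k1, ?_⟩
  have hpr : ∀ (I P : Ideal (𝓞 k)), P ∈ pf I → P.IsPrime ∧ P ∣ I := by
    intro I P hP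
    have hP' : P ∈ UniqueFactorizationMonoid.normalizedFactors I := by
      unfold pf at hP
      exact Multiset.mem_toFinset.1 hP
    exact ⟨Ideal.isPrime_of_prime (UniqueFactorizationMonoid.prime_of_normalized_factor P hP'),
      UniqueFactorizationMonoid.dvd_of_mem_normalizedFactors hP'⟩
  have hun : pf (f * m) = pf f ∪ pf m := by
    unfold pf
    rw [UniqueFactorizationMonoid.normalizedFactors_mul hf hm, Multiset.toFinset_add]
  have hdj : Disjoint (pf f) (pf m) := by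
    rw [Finset.disjoint_left]
    intro P hP1 hP2
    obtain ⟨hp, h1⟩ := hpr f P hP1
    obtain ⟨_, h2⟩ := hpr m P hP2
    exact hp.ne_top (top_le_iff.1 (hfm ▸ sup_le (Ideal.le_of_dvd h1) (Ideal.le_of_dvd h2)))
  unfold Rn
  rw [hun, Finset.prod_union hdj]
  congr 1
  · refine Finset.prod_congr rfl fun P hP => ?_
    obtain ⟨hp, h1⟩ := hpr f P hP
    have h := k1 P hp h1
    by_cases hd : Dv P L₁ Q
    · rw [if_pos hd, if_pos (h.2 hd)]
    · rw [if_neg hd, if_neg fun h' => hd (h.1 h')]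
  · refine Finset.prod_congr rfl fun P hP => ?_
    obtain ⟨hp, h1⟩ := hpr m P hP
    have h := k2 P hp h1
    by_cases hd : Dv P L₂ Q
    · rw [if_pos hd, if_pos (h.2 hd)]
    · rw [if_neg hd, if_neg fun h' => hd (h.1 h')]

end Pool.Agent.H13.CM4
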